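import Mathlib

/-!
# A minimal field topology that is not locally bounded: the abstract part

We are given a field `K` with, for every `ω` in a probability space, a decreasing sequence of
coarser and coarser valuations `v n ω`.  The field topology has the sets
`U n δ = {x | μ {ω | 1 ≤ v n ω x} < δ}` as basic neighbourhoods of `0`.
-/

set_option autoImplicit false
open Filter Topology MeasureTheory
open scoped ENNReal Pointwise

namespace Pool.Agent.MP_db08e8_al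

/-- The axioms on a random sequence of valuations used in the construction. -/
structure RandVal (K : Type) [Field K] (W : Type) [LinearOrderedCommGroupWithZero W]
    (Ω : Type) [MeasurableSpace Ω] (μ : Measure Ω) (v : ℕ → Ω → Valuation K W) : Prop where
  mono : ∀ n ω x, v (n + 1) ω x < 1 → v n ω x < 1
  unit : ∀ c : K, c ≠ 0 → ∃ N, ∀ n ≥ N, ∀ ω, v n ω c = 1
  sq : ∀ n ω (x y : K), (v n ω x) ^ 2 ≤ v n ω (x ^ 2 + y ^ 2)
  small : ∀ n, ∃ a : K, a ≠ 0 ∧ ∀ ω, v n ω a < 1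
  part : ∀ δ : ℝ≥0∞, 0 < δ → ∃ ε : ℝ≥0∞, 0 < ε ∧
    ∀ n, ∃ e : K, μ {ω | 1 ≤ v n ω e} < δ ∧ ε ≤ μ {ω | 1 ≤ v 0 ω e}
  indep : ∀ (n : ℕ) (p : K), ∃ N, ∀ m ≥ N, ∀ x : K,
    μ ({ω | 1 ≤ v n ω p} ∩ {ω | v m ω x < 1}) ≤
      μ {ω | 1 ≤ v n ω p} * (1 - μ {ω | 1 ≤ v m ω x})

section

variable {K : Type} [Field K] {W : Type} [LinearOrderedCommGroupWithZero W]
  {Ω : Type} [MeasurableSpace Ω] {μ : Measure Ω} {v : ℕ → Ω → Valuation K W}

/-- The failure measure. -/
noncomputable def phi (μ : Measure Ω) (v : ℕ → Ω → Valuation K W) (n : ℕ) (x : K) : ℝ≥0∞ :=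
  μ {ω | 1 ≤ v n ω x}

/-- The basic neighbourhoods of zero. -/
def nb (μ : Measure Ω) (v : ℕ → Ω → Valuation K W) (n : ℕ) (δ : ℝ≥0∞) : Set K :=
  {x | phi μ v n x < δ}

lemma mono_le (h : RandVal K W Ω μ v) {n m : ℕ} (hnm : n ≤ m) (ω : Ω) (x : K)
    (hx : v m ω x < 1) : v n ω x < 1 := by
  induction m, hnm using Nat.le_induction with
  | base => exact hx
  | succ m _ ih => exact ih (h.mono m ω x hx)

lemma phi_mono (h : RandVal K W Ω μ v) {n m : ℕ} (hnm : n ≤ m) (x : K) :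
    phi μ v n x ≤ phi μ v m x := by
  refine measure_mono fun ω hω => ?_
  simp only [Set.mem_ofPred_eq] at hω ⊢
  by_contra hc
  exact absurd (mono_le h hnm ω x (not_le.1 hc)) (not_lt.2 hω)

lemma phi_zero (n : ℕ) : phi μ v n 0 = 0 := by
  simp [phi]

lemma phi_add (n : ℕ) (x y : K) : phi μ v n (x + y) ≤ phi μ v n x + phi μ v n y := by
  refine (measure_mono ?_).trans (measure_union_le _ _)
  intro ω hω
  simp only [Set.mem_ofPred_eq, Set.mem_union] at hω ⊢
  by_contra hc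
  push Not at hc
  exact absurd (Valuation.map_add_lt _ hc.1 hc.2) (not_lt.2 hω)

lemma phi_neg (n : ℕ) (x : K) : phi μ v n (-x) = phi μ v n x := by
  simp [phi]

lemma phi_mul (n : ℕ) (x y : K) : phi μ v n (x * y) ≤ phi μ v n x + phi μ v n y := by
  refine (measure_mono ?_).trans (measure_union_le _ _)
  intro ω hω
  simp only [Set.mem_ofPred_eq, Set.mem_union, map_mul] at hω ⊢
  by_contra hc
  push Not at hc
  exact absurd (mul_lt_one_of_lt_of_le hc.1 hc.2.le) (not_lt.2 hω)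

lemma phi_mul_unit {n : ℕ} {c : K} (hc : ∀ ω, v n ω c = 1) (x : K) :
    phi μ v n (c * x) = phi μ v n x := by
  simp [phi, hc]

lemma nb_mono (h : RandVal K W Ω μ v) {n m : ℕ} (hnm : n ≤ m) {δ ε : ℝ≥0∞} (hδ : δ ≤ ε) :
    nb μ v m δ ⊆ nb μ v n ε := fun x hx =>
  lt_of_lt_of_le (lt_of_le_of_lt (phi_mono h hnm x) hx) hδ

/-- The filter basis. -/
@[reducible] noncomputable def basis (h : RandVal K W Ω μ v) : RingFilterBasis K where
  sets := {S | ∃ (n : ℕ) (δ : ℝ≥0∞), 0 < δ ∧ S = nb μ v n δ}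
  nonempty := ⟨_, 0, 1, one_pos, rfl⟩
  inter_sets := by
    rintro _ _ ⟨n, δ, hδ, rfl⟩ ⟨m, ε, hε, rfl⟩
    exact ⟨_, ⟨max n m, min δ ε, lt_min hδ hε, rfl⟩, Set.subset_inter
      (nb_mono h (le_max_left _ _) (min_le_left _ _)) (nb_mono h (le_max_right _ _) (min_le_right _ _))⟩
  zero' := by
    rintro _ ⟨n, δ, hδ, rfl⟩
    simpa [nb, phi_zero] using hδ
  add' := by
    rintro _ ⟨n, δ, hδ, rfl⟩
    refine ⟨_, ⟨n, δ / 2, ENNReal.half_pos hδ.ne', rfl⟩, ?_⟩
    rintro _ ⟨x, hx, y, hy, rfl⟩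
    calc phi μ v n (x + y) ≤ _ := phi_add n x y
      _ < δ / 2 + δ / 2 := ENNReal.add_lt_add hx hy
      _ = δ := ENNReal.add_halves δ
  neg' := by
    rintro _ ⟨n, δ, hδ, rfl⟩
    refine ⟨_, ⟨n, δ, hδ, rfl⟩, ?_⟩
    intro x hx
    simpa [nb, phi_neg] using hx
  conj' := by
    rintro x _ ⟨n, δ, hδ, rfl⟩
    refine ⟨_, ⟨n, δ, hδ, rfl⟩, ?_⟩
    intro y hy
    simpa using hy
  mul' := by
    rintro _ ⟨n, δ, hδ, rfl⟩
    refine ⟨_, ⟨n, δ / 2, ENNReal.half_pos hδ.ne', rfl⟩, ?_⟩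
    rintro _ ⟨x, hx, y, hy, rfl⟩
    calc phi μ v n (x * y) ≤ _ := phi_mul n x y
      _ < δ / 2 + δ / 2 := ENNReal.add_lt_add hx hy
      _ = δ := ENNReal.add_halves δ
  mul_left' := by
    rintro c _ ⟨n, δ, hδ, rfl⟩
    by_cases hc : c = 0
    · refine ⟨_, ⟨n, δ, hδ, rfl⟩, ?_⟩
      intro x _
      simpa [nb, phi_zero, hc] using hδ
    · obtain ⟨N, hN⟩ := h.unit c hc
      refine ⟨_, ⟨max n N, δ, hδ, rfl⟩, ?_⟩
      intro x hx
      have h1 : phi μ v (max n N) (c * x) < δ := by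
        rw [phi_mul_unit (hN _ (le_max_right _ _))]
        exact hx
      exact lt_of_le_of_lt (phi_mono h (le_max_left _ _) _) h1
  mul_right' := by
    rintro c _ ⟨n, δ, hδ, rfl⟩
    by_cases hc : c = 0
    · refine ⟨_, ⟨n, δ, hδ, rfl⟩, ?_⟩
      intro x _
      simpa [nb, phi_zero, hc] using hδ
    · obtain ⟨N, hN⟩ := h.unit c hc
      refine ⟨_, ⟨max n N, δ, hδ, rfl⟩, ?_⟩
      intro x hx
      have h1 : phi μ v (max n N) (c * x) < δ := by
        rw [phi_mul_unit (hN _ (le_max_right _ _))]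
        exact hx
      show phi μ v n (x * c) < δ
      rw [mul_comm x c]
      exact lt_of_le_of_lt (phi_mono h (le_max_left _ _) _) h1

lemma nhds_zero_basis (h : RandVal K W Ω μ v) (S : Set K) :
    S ∈ @nhds K (basis h).topology 0 ↔ ∃ (n : ℕ) (δ : ℝ≥0∞), 0 < δ ∧ nb μ v n δ ⊆ S := by
  have := (AddGroupFilterBasis.nhds_zero_hasBasis (basis h).toAddGroupFilterBasis).mem_iff (t := S)
  refine Iff.trans this ?_
  constructor
  · rintro ⟨T, ⟨n, δ, hδ, rfl⟩, hT⟩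
    exact ⟨n, δ, hδ, hT⟩
  · rintro ⟨n, δ, hδ, hT⟩
    exact ⟨_, ⟨n, δ, hδ, rfl⟩, hT⟩


lemma isTopologicalDivisionRing (h : RandVal K W Ω μ v) :
    @IsTopologicalDivisionRing K _ (basis h).topology := by
  let _ : TopologicalSpace K := (basis h).topology
  have : IsTopologicalRing K := (basis h).isTopologicalRing
  refine @IsTopologicalDivisionRing.mk K _ _ inferInstance ⟨?_⟩
  intro x hx
  obtain ⟨N, hN⟩ := h.unit x hx
  intro S hS
  rw [← map_add_left_nhds_zero x⁻¹, mem_map, nhds_zero_basis h] at hS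
  obtain ⟨n, δ, hδ, hS⟩ := hS
  rw [← map_add_left_nhds_zero x, mem_map, mem_map, nhds_zero_basis h]
  refine ⟨max n N, δ, hδ, ?_⟩
  intro y hy
  have h1 : (x + y)⁻¹ = x⁻¹ + ((x + y)⁻¹ - x⁻¹) := by ring
  show (x + y)⁻¹ ∈ S
  rw [h1]
  refine hS ?_
  refine lt_of_le_of_lt (phi_mono h (le_max_left n N) _) ?_
  refine lt_of_le_of_lt (measure_mono ?_) hy
  intro ω hω
  simp only [Set.mem_ofPred_eq] at hω ⊢
  by_contra hc
  rw [not_le] at hc
  have hvx := hN (max n N) (le_max_right _ _) ω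
  have hvxy : v (max n N) ω (x + y) = 1 := by
    rw [Valuation.map_add_eq_of_lt_left, hvx]
    rw [hvx]; exact hc
  have hne : x + y ≠ 0 := by
    intro h0
    rw [h0, map_zero] at hvxy
    exact zero_ne_one hvxy
  have h2 : (x + y)⁻¹ - x⁻¹ = -(y * (x * (x + y))⁻¹) := by
    field_simp
    ring
  rw [h2, Valuation.map_neg, map_mul, map_inv₀, map_mul, hvx, hvxy] at hω
  simp only [mul_one, inv_one] at hω
  exact absurd hc (not_lt.2 hω)

lemma t2 [IsProbabilityMeasure μ] (h : RandVal K W Ω μ v) : @T2Space K (basis h).topology := by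
  let _ : TopologicalSpace K := (basis h).topology
  have : IsTopologicalRing K := (basis h).isTopologicalRing
  refine IsTopologicalAddGroup.t2Space_of_zero_sep ?_
  intro x hx
  obtain ⟨N, hN⟩ := h.unit x hx
  refine ⟨nb μ v N 1, ?_, ?_⟩
  · rw [nhds_zero_basis h]
    exact ⟨N, 1, one_pos, subset_rfl⟩
  · intro hx'
    have h1 : phi μ v N x = 1 := by
      have : {ω | 1 ≤ v N ω x} = Set.univ := by
        ext ω
        simp [hN N le_rfl ω]
      rw [phi, this, measure_univ]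
    have h2 : phi μ v N x < 1 := hx'
    rw [h1] at h2
    exact lt_irrefl _ h2

lemma not_locallyBounded (h : RandVal K W Ω μ v) :
    ¬ ∃ U ∈ @nhds K (basis h).topology 0, ∀ V ∈ @nhds K (basis h).topology 0,
      ∃ S ∈ @nhds K (basis h).topology 0, ∀ w ∈ S, ∀ u ∈ U, w * u ∈ V := by
  rintro ⟨U, hU, hb⟩
  rw [nhds_zero_basis h] at hU
  obtain ⟨n, δ, hδ, hU⟩ := hU
  obtain ⟨ε, hε, hE⟩ := h.part δ hδ
  obtain ⟨S, hS, hS'⟩ := hb (nb μ v 0 ε) ((nhds_zero_basis h _).2 ⟨0, ε, hε, subset_rfl⟩)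
  rw [nhds_zero_basis h] at hS
  obtain ⟨m, η, hη, hS⟩ := hS
  obtain ⟨a, ha0, ha⟩ := h.small m
  obtain ⟨N, hN⟩ := h.unit a ha0
  obtain ⟨e, he1, he2⟩ := hE (max n N)
  have haS : a ∈ S := by
    refine hS ?_
    have : {ω | 1 ≤ v m ω a} = ∅ := by
      ext ω
      simp [ha ω]
    show phi μ v m a < η
    rw [phi, this, measure_empty]
    exact hη
  have heU : a⁻¹ * e ∈ U := by
    refine hU (lt_of_le_of_lt (phi_mono h (le_max_left n N) _) ?_)
    rw [phi_mul_unit]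
    · exact he1
    · intro ω
      rw [map_inv₀, hN _ (le_max_right _ _), inv_one]
  have := hS' a haS _ heU
  rw [mul_inv_cancel_left₀ ha0] at this
  exact absurd this (not_lt.2 he2)

lemma den_ge (h : RandVal K W Ω μ v) (n : ℕ) (ω : Ω) (a x : K) :
    (v n ω x) ^ 2 ≤ v n ω ((a + x) ^ 2 + x ^ 2) ∧ (v n ω a) ^ 2 ≤ v n ω ((a + x) ^ 2 + x ^ 2) := by
  have h1 := h.sq n ω (a + x) x
  have h2 := h.sq n ω x (a + x)
  rw [add_comm (x ^ 2)] at h2
  refine ⟨h2, ?_⟩
  have h3 : v n ω a ≤ max (v n ω (a + x)) (v n ω x) := by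
    have := Valuation.map_sub (v n ω) (a + x) x
    simpa using this
  rcases le_max_iff.1 h3 with h4 | h4
  · exact (pow_le_pow_left₀ zero_le h4 2).trans h1
  · exact (pow_le_pow_left₀ zero_le h4 2).trans h2

lemma ratio_le_one (h : RandVal K W Ω μ v) (n : ℕ) (ω : Ω) (a x : K) :
    v n ω (a ^ 2 / ((a + x) ^ 2 + x ^ 2)) ≤ 1 := by
  rw [map_div₀, map_pow]
  by_cases hq : v n ω ((a + x) ^ 2 + x ^ 2) = 0
  · rw [hq, div_zero]; exact zero_le
  · rw [div_le_one₀ (zero_lt_iff.2 hq)]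
    exact (den_ge h n ω a x).2

lemma ratio_lt_one (h : RandVal K W Ω μ v) (n : ℕ) (ω : Ω) {a x : K} (ha : v n ω a < 1)
    (hx : 1 ≤ v n ω x) :
    v n ω (a ^ 2 / ((a + x) ^ 2 + x ^ 2)) < 1 := by
  have h1 := (den_ge h n ω a x).1
  have h2 : 1 ≤ v n ω ((a + x) ^ 2 + x ^ 2) := le_trans (one_le_pow₀ hx) h1
  rw [map_div₀, map_pow, div_lt_one₀ (lt_of_lt_of_le zero_lt_one h2)]
  exact lt_of_lt_of_le (pow_lt_one₀ zero_le ha two_ne_zero) h2

/-- The key step: in a topological field whose topology is coarser than the one given by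
`v`, and in which `nb n δ` is not a neighbourhood of zero, each neighbourhood of `1` contains
elements which are in the maximal ideal with probability close to one. -/
lemma key [TopologicalSpace K] [IsTopologicalDivisionRing K] [IsProbabilityMeasure μ]
    (h : RandVal K W Ω μ v) {n : ℕ} {δ : ℝ≥0∞}
    (hn : nb μ v n δ ∉ 𝓝 (0 : K)) (m₀ : ℕ) (k : ℕ) :
    ∀ V ∈ 𝓝 (1 : K), ∃ p ∈ V, (∀ ω, v m₀ ω p ≤ 1) ∧ phi μ v m₀ p ≤ (1 - δ) ^ k := by
  induction k with
  | zero =>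
    intro V hV
    refine ⟨1, mem_of_mem_nhds hV, fun ω => by simp, ?_⟩
    rw [pow_zero]
    exact prob_le_one
  | succ k ih =>
    intro V hV
    have hmul : Tendsto (fun q : K × K => q.1 * q.2) (𝓝 (1, 1)) (𝓝 (1 : K)) := by
      have := (continuous_mul (M := K)).tendsto (1, 1)
      simpa using this
    obtain ⟨V₁, hV₁, V₂, hV₂, hVV⟩ := mem_nhds_prod_iff.1 (hmul hV)
    obtain ⟨p, hpV, hp1, hpφ⟩ := ih V₁ hV₁
    obtain ⟨N, hN⟩ := h.indep m₀ p
    set m := max N (max m₀ n) with hm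
    have hmN : N ≤ m := le_max_left _ _
    have hmm : m₀ ≤ m := (le_max_left _ _).trans (le_max_right _ _)
    have hmn : n ≤ m := (le_max_right _ _).trans (le_max_right _ _)
    obtain ⟨a, ha0, ha⟩ := h.small m
    have hg : Tendsto (fun x : K => a ^ 2 / ((a + x) ^ 2 + x ^ 2)) (𝓝 0) (𝓝 1) := by
      have hc : ContinuousAt (fun x : K => a ^ 2 / ((a + x) ^ 2 + x ^ 2)) 0 := by
        refine ContinuousAt.div₀ continuousAt_const (by fun_prop) ?_
        simpa using ha0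
      have := hc.tendsto
      simpa [div_self (pow_ne_zero 2 ha0)] using this
    have hx : ∃ x : K, a ^ 2 / ((a + x) ^ 2 + x ^ 2) ∈ V₂ ∧ δ ≤ phi μ v m x := by
      by_contra hc
      push Not at hc
      refine hn (mem_of_superset (hg hV₂) fun x hx => ?_)
      exact nb_mono h hmn le_rfl (hc x hx)
    obtain ⟨x, hxV, hxφ⟩ := hx
    refine ⟨p * (a ^ 2 / ((a + x) ^ 2 + x ^ 2)), hVV (Set.mk_mem_prod hpV hxV), ?_, ?_⟩
    · intro ω
      rw [map_mul]
      exact mul_le_one' (hp1 ω) (ratio_le_one h m₀ ω a x)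
    · have h1 : {ω | 1 ≤ v m₀ ω (p * (a ^ 2 / ((a + x) ^ 2 + x ^ 2)))} ⊆
          {ω | 1 ≤ v m₀ ω p} ∩ {ω | v m ω x < 1} := by
        intro ω hω
        simp only [Set.mem_ofPred_eq, Set.mem_inter_iff] at hω ⊢
        rw [map_mul] at hω
        constructor
        · by_contra hc
          rw [not_le] at hc
          exact absurd (mul_lt_one_of_lt_of_le hc (ratio_le_one h m₀ ω a x)) (not_lt.2 hω)
        · by_contra hc
          rw [not_lt] at hc
          have h2 := mono_le h hmm ω _ (ratio_lt_one h m ω (ha ω) hc)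
          rw [mul_comm] at hω
          exact absurd (mul_lt_one_of_lt_of_le h2 (hp1 ω)) (not_lt.2 hω)
      calc phi μ v m₀ (p * (a ^ 2 / ((a + x) ^ 2 + x ^ 2)))
          ≤ μ ({ω | 1 ≤ v m₀ ω p} ∩ {ω | v m ω x < 1}) := measure_mono h1
        _ ≤ μ {ω | 1 ≤ v m₀ ω p} * (1 - μ {ω | 1 ≤ v m ω x}) := hN m hmN x
        _ ≤ (1 - δ) ^ k * (1 - δ) := mul_le_mul' hpφ (tsub_le_tsub_left hxφ 1)
        _ = (1 - δ) ^ (k + 1) := (pow_succ _ _).symm

/-- In a topological field whose topology is Hausdorff and coarser than the one given by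
`v`, each `nb n δ` is a neighbourhood of zero. -/
lemma nb_mem_nhds [TopologicalSpace K] [IsTopologicalDivisionRing K] [T2Space K]
    [IsProbabilityMeasure μ]
    (h : RandVal K W Ω μ v)
    (hle : ∀ S ∈ 𝓝 (0 : K), ∃ (n : ℕ) (δ : ℝ≥0∞), 0 < δ ∧ nb μ v n δ ⊆ S)
    (n : ℕ) {δ : ℝ≥0∞} (hδ : 0 < δ) : nb μ v n δ ∈ 𝓝 (0 : K) := by
  by_contra hn
  have hW : ({1}ᶜ : Set K) ∈ 𝓝 (0 : K) := isOpen_compl_singleton.mem_nhds (by simp)
  obtain ⟨W₁, hW₁, hWW⟩ := exists_nhds_zero_half hW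
  obtain ⟨m₀, η, hη, hm₀⟩ := hle W₁ hW₁
  have hV : {p : K | 1 - p ∈ W₁} ∈ 𝓝 (1 : K) := by
    have : Tendsto (fun p : K => 1 - p) (𝓝 1) (𝓝 0) := by
      have hc : Continuous fun p : K => (1 : K) - p := by fun_prop
      have := hc.tendsto 1
      rwa [sub_self] at this
    exact this hW₁
  have hlim : Tendsto (fun k : ℕ => (1 - δ) ^ k) atTop (𝓝 (0 : ℝ≥0∞)) := by
    apply ENNReal.tendsto_pow_atTop_nhds_zero_of_lt_one
    exact ENNReal.sub_lt_self ENNReal.one_ne_top one_ne_zero hδ.ne'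
  obtain ⟨k, hk⟩ := ((tendsto_order.1 hlim).2 η hη).exists
  obtain ⟨p, hp, -, hpφ⟩ := key h hn m₀ k _ hV
  have hpW : p ∈ W₁ := hm₀ (lt_of_le_of_lt hpφ hk)
  have := hWW (1 - p) hp p hpW
  simp at this

/-- The topology of a random sequence of valuations is minimal. -/
lemma minimal [IsProbabilityMeasure μ] (h : RandVal K W Ω μ v) (t' : TopologicalSpace K)
    (h1 : @IsTopologicalDivisionRing K _ t') (h2 : @T2Space K t')
    (h3 : (basis h).topology ≤ t') : t' = (basis h).topology := by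
  have g1 : @IsTopologicalAddGroup K t' _ :=
    @IsTopologicalRing.to_topologicalAddGroup K _ t' h1.toIsTopologicalRing
  have g2 : @IsTopologicalAddGroup K (basis h).topology _ :=
    @IsTopologicalRing.to_topologicalAddGroup K _ (basis h).topology
      ((basis h).isTopologicalRing)
  refine IsTopologicalAddGroup.ext g1 g2 ?_
  refine le_antisymm ?_ (nhds_mono h3)
  intro S hS
  rw [nhds_zero_basis h] at hS
  obtain ⟨n, δ, hδ, hS⟩ := hS
  refine mem_of_superset ?_ hS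
  refine @nb_mem_nhds K _ W _ Ω _ μ v t' h1 h2 _ h ?_ n δ hδ
  intro S hS
  rw [← nhds_zero_basis h]
  exact nhds_mono h3 hS

/-- Summary of the abstract part. -/
theorem abstract_result [IsProbabilityMeasure μ] (h : RandVal K W Ω μ v) :
    ∃ (t : TopologicalSpace K),
      IsTopologicalDivisionRing K ∧ T2Space K ∧
      (¬ ∃ U ∈ 𝓝 (0 : K), ∀ V ∈ 𝓝 (0 : K), ∃ W ∈ 𝓝 (0 : K),
          ∀ w ∈ W, ∀ u ∈ U, w * u ∈ V) ∧
      ∀ t' : TopologicalSpace K,
        @IsTopologicalDivisionRing K _ t' → @T2Space K t' → t ≤ t' → t' = t :=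
  ⟨(basis h).topology, isTopologicalDivisionRing h, t2 h, not_locallyBounded h,
    fun t' => minimal h t'⟩

end

end Pool.Agent.MP_db08e8_al
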