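import Mathlib

/-!
# Valuations on a polynomial ring from an injective additive map on exponents
-/

set_option autoImplicit false
open WithZero

namespace Pool.Agent.MP_db08e8_al

/-- The value group: finitely supported integer sequences, the largest index being the most
significant one. -/
abbrev G := Colex (ℕ →₀ ℤ)

/-- The value group with zero. -/
abbrev W := WithZero (Multiplicative G)

/-- The polynomial ring. -/
abbrev A := MvPolynomial ℕ ℚ

/-- largest exponent in the support, as an element of `W`. -/
noncomputable def val (f : (ℕ →₀ ℕ) →+ G) (p : A) : W := p.support.sup fun d => exp (f d)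

lemma exp_le_val (f : (ℕ →₀ ℕ) →+ G) {p : A} {d : ℕ →₀ ℕ} (hd : d ∈ p.support) :
    exp (f d) ≤ val f p := Finset.le_sup (f := fun d => (exp (f d) : W)) hd

lemma val_zero (f : (ℕ →₀ ℕ) →+ G) : val f 0 = 0 := by
  simp only [val, MvPolynomial.support_zero, Finset.sup_empty]
  rfl

lemma val_le {f : (ℕ →₀ ℕ) →+ G} {p : A} {c : W} (h : ∀ d ∈ p.support, exp (f d) ≤ c) :
    val f p ≤ c := Finset.sup_le h

lemma exists_val (f : (ℕ →₀ ℕ) →+ G) {p : A} (hp : p ≠ 0) :
    ∃ d ∈ p.support, val f p = exp (f d) :=
  Finset.exists_mem_eq_sup _ (MvPolynomial.support_nonempty.2 hp) _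

lemma val_ne_zero (f : (ℕ →₀ ℕ) →+ G) {p : A} (hp : p ≠ 0) : val f p ≠ 0 := by
  obtain ⟨d, -, hd⟩ := exists_val f hp
  rw [hd]
  exact exp_ne_zero

/-- The coefficient of the product at the sum of the top exponents. -/
lemma coeff_top {f : (ℕ →₀ ℕ) →+ G} (hf : Function.Injective f) {p q : A} {a b : ℕ →₀ ℕ}
    (ha : ∀ d ∈ p.support, f d ≤ f a) (hb : ∀ d ∈ q.support, f d ≤ f b) :
    (p * q).coeff (a + b) = p.coeff a * q.coeff b := by
  rw [MvPolynomial.coeff_mul]
  refine Finset.sum_eq_single_of_mem (a, b) (by simp) ?_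
  rintro ⟨c, d⟩ hcd hne
  rw [Finset.HasAntidiagonal.mem_antidiagonal] at hcd
  simp only at hcd ⊢
  by_contra h0
  have hc : c ∈ p.support := by
    rw [MvPolynomial.mem_support_iff]; exact left_ne_zero_of_mul h0
  have hd : d ∈ q.support := by
    rw [MvPolynomial.mem_support_iff]; exact right_ne_zero_of_mul h0
  have h1 := ha c hc
  have h2 := hb d hd
  have h3 : f c + f d = f a + f b := by rw [← map_add, ← map_add, hcd]
  have h4 : f c = f a := by
    rcases h1.lt_or_eq with h | h
    · exact absurd h3 (add_lt_add_of_lt_of_le h h2).ne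
    · exact h
  have h5 : c = a := hf h4
  subst h5
  have h6 : d = b := by simpa using hcd
  exact hne (by rw [h6])

lemma val_mul {f : (ℕ →₀ ℕ) →+ G} (hf : Function.Injective f) (p q : A) :
    val f (p * q) = val f p * val f q := by
  classical
  by_cases hp : p = 0
  · simp [hp, val_zero]
  by_cases hq : q = 0
  · simp [hq, val_zero]
  apply le_antisymm
  · refine val_le fun d hd => ?_
    obtain ⟨a, ha, b, hb, rfl⟩ := Finset.mem_add.1 (MvPolynomial.support_mul p q hd)
    rw [map_add, exp_add]
    exact mul_le_mul' (exp_le_val f ha) (exp_le_val f hb)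
  · obtain ⟨a, ha, hpa⟩ := exists_val f hp
    obtain ⟨b, hb, hqb⟩ := exists_val f hq
    have h1 : ∀ d ∈ p.support, f d ≤ f a := by
      intro d hd
      have := exp_le_val f hd
      rwa [hpa, exp_le_exp] at this
    have h2 : ∀ d ∈ q.support, f d ≤ f b := by
      intro d hd
      have := exp_le_val f hd
      rwa [hqb, exp_le_exp] at this
    rw [hpa, hqb, ← exp_add, ← map_add]
    apply exp_le_val
    rw [MvPolynomial.mem_support_iff, coeff_top hf h1 h2]
    exact mul_ne_zero (MvPolynomial.mem_support_iff.1 ha) (MvPolynomial.mem_support_iff.1 hb)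

lemma val_one (f : (ℕ →₀ ℕ) →+ G) : val f 1 = 1 := by
  simp [val]

lemma val_add (f : (ℕ →₀ ℕ) →+ G) (p q : A) : val f (p + q) ≤ max (val f p) (val f q) := by
  classical
  refine val_le fun d hd => ?_
  rcases Finset.mem_union.1 (MvPolynomial.support_add hd) with h | h
  · exact (exp_le_val f h).trans (le_max_left _ _)
  · exact (exp_le_val f h).trans (le_max_right _ _)

/-- The valuation on the polynomial ring. -/
noncomputable def valA (f : (ℕ →₀ ℕ) →+ G) (hf : Function.Injective f) : Valuation A W where
  toFun := val f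
  map_zero' := val_zero f
  map_one' := val_one f
  map_mul' := val_mul hf
  map_add_le_max' := val_add f

lemma val_sq {f : (ℕ →₀ ℕ) →+ G} (hf : Function.Injective f) (p q : A) :
    (val f p) ^ 2 ≤ val f (p ^ 2 + q ^ 2) := by
  classical
  by_cases hp : p = 0
  · simp [hp, val_zero]
  obtain ⟨a, ha, hmax⟩ := Finset.exists_max_image (p.support ∪ q.support) f
    (Finset.Nonempty.inl (MvPolynomial.support_nonempty.2 hp))
  have h1 : ∀ d ∈ p.support, f d ≤ f a := fun d hd => hmax d (Finset.mem_union_left _ hd)
  have h2 : ∀ d ∈ q.support, f d ≤ f a := fun d hd => hmax d (Finset.mem_union_right _ hd)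
  have h3 : val f p ≤ exp (f a) := val_le fun d hd => exp_le_exp.2 (h1 d hd)
  calc (val f p) ^ 2 ≤ (exp (f a)) ^ 2 := pow_le_pow_left₀ zero_le h3 2
    _ = exp (f (a + a)) := by rw [map_add, exp_add, sq]
    _ ≤ _ := by
        apply exp_le_val
        rw [MvPolynomial.mem_support_iff, MvPolynomial.coeff_add, sq, sq, coeff_top hf h1 h1,
          coeff_top hf h2 h2]
        rcases Finset.mem_union.1 ha with h | h
        · rw [MvPolynomial.mem_support_iff] at h
          exact (add_pos_of_pos_of_nonneg (mul_self_pos.2 h) (mul_self_nonneg _)).ne'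
        · rw [MvPolynomial.mem_support_iff] at h
          exact (add_pos_of_nonneg_of_pos (mul_self_nonneg _) (mul_self_pos.2 h)).ne'

/-- The field. -/
abbrev K := FractionRing A

/-- The valuation on the field. -/
noncomputable def valK (f : (ℕ →₀ ℕ) →+ G) (hf : Function.Injective f) : Valuation K W :=
  (valA f hf).extendToLocalization (S := nonZeroDivisors A) (by
    intro s hs
    show s ∉ (valA f hf).supp
    rw [Valuation.mem_supp_iff]
    exact val_ne_zero f (nonZeroDivisors.ne_zero hs)) K

lemma valK_algebraMap (f : (ℕ →₀ ℕ) →+ G) (hf : Function.Injective f) (p : A) :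
    valK f hf (algebraMap A K p) = val f p :=
  Valuation.extendToLocalization_apply_map_apply _ _ _ _

lemma valK_sq (f : (ℕ →₀ ℕ) →+ G) (hf : Function.Injective f) (x y : K) :
    (valK f hf x) ^ 2 ≤ valK f hf (x ^ 2 + y ^ 2) := by
  obtain ⟨p, q, hq, rfl⟩ := IsFractionRing.div_surjective (A := A) x
  obtain ⟨r, s, hs, rfl⟩ := IsFractionRing.div_surjective (A := A) y
  have hq0 : algebraMap A K q ≠ 0 := by
    simpa using nonZeroDivisors.ne_zero hq
  have hs0 : algebraMap A K s ≠ 0 := by
    simpa using nonZeroDivisors.ne_zero hs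
  have e1 : algebraMap A K p / algebraMap A K q =
      algebraMap A K (p * s) / algebraMap A K (q * s) := by
    rw [map_mul, map_mul]
    field_simp
  have e2 : (algebraMap A K p / algebraMap A K q) ^ 2 + (algebraMap A K r / algebraMap A K s) ^ 2 =
      algebraMap A K ((p * s) ^ 2 + (r * q) ^ 2) / (algebraMap A K (q * s)) ^ 2 := by
    simp only [map_mul, map_add, map_pow]
    field_simp
  rw [e2, e1, map_div₀, div_pow, map_div₀, map_pow, valK_algebraMap, valK_algebraMap,
    valK_algebraMap]
  exact div_le_div_of_nonneg_right (val_sq hf _ _) zero_le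

end Pool.Agent.MP_db08e8_al
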