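import Mathlib
import Pool.Agent.Lib.MP_db08e8_al.Val
import Pool.Agent.Lib.MP_db08e8_al.Abstract

/-!
# The random valuations on the rational function field
-/

set_option autoImplicit false
open WithZero MeasureTheory
open scoped ENNReal

namespace Pool.Agent.MP_db08e8_al

/-- Sign attached to a bit. -/
def sgn (b : Bool) : ℤ := if b then -1 else 1

lemma sgn_ne_zero (b : Bool) : sgn b ≠ 0 := by cases b <;> simp [sgn]

/-- drop the coordinates below `n` -/
noncomputable def proj (n : ℕ) : G →+ G where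
  toFun x := toColex ((ofColex x).filter (fun j => n ≤ j))
  map_zero' := by
    change toColex (Finsupp.filter _ (0 : ℕ →₀ ℤ)) = toColex 0
    rw [Finsupp.filter_zero]
  map_add' x y := by
    change toColex (Finsupp.filter _ (ofColex x + ofColex y)) = _
    rw [Finsupp.filter_add]
    rfl

lemma proj_apply (n : ℕ) (x : G) (j : ℕ) :
    ofColex (proj n x) j = if n ≤ j then ofColex x j else 0 := by
  change Finsupp.filter _ (ofColex x) j = _
  rw [Finsupp.filter_apply]

lemma G_ext {x y : G} (h : ∀ j, ofColex x j = ofColex y j) : x = y :=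
  ofColex.injective (Finsupp.ext h)

lemma proj_mono (n : ℕ) : Monotone (proj n) := by
  intro x y hxy
  rcases hxy.lt_or_eq with h | h
  · obtain ⟨i, hi1, hi2⟩ := Finsupp.Colex.lt_iff.1 h
    by_cases hni : n ≤ i
    · apply le_of_lt
      refine Finsupp.Colex.lt_iff.2 ⟨i, ?_, ?_⟩
      · intro j hj
        rw [proj_apply, proj_apply, hi1 j hj]
      · rw [proj_apply, proj_apply, if_pos hni, if_pos hni]
        exact hi2
    · apply le_of_eq
      apply G_ext
      intro j
      rw [proj_apply, proj_apply]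
      by_cases hj : n ≤ j
      · rw [if_pos hj, if_pos hj, hi1 j (by omega)]
      · rw [if_neg hj, if_neg hj]
  · rw [h]

/-- The twisted exponent map. -/
noncomputable def D (ω : ℕ → Bool) : (ℕ →₀ ℕ) →+ G where
  toFun d := toColex (Finsupp.onFinset d.support (fun j => sgn (ω j) * d j) (by
    intro j hj
    simp only [Finsupp.mem_support_iff]
    rintro h0
    simp [h0] at hj))
  map_zero' := by
    apply G_ext
    intro j
    change sgn (ω j) * ((0 : ℕ) : ℤ) = 0
    simp
  map_add' d e := by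
    apply G_ext
    intro j
    change sgn (ω j) * ((d j + e j : ℕ) : ℤ) = sgn (ω j) * (d j : ℤ) + sgn (ω j) * (e j : ℤ)
    push_cast
    ring

lemma D_apply (ω : ℕ → Bool) (d : ℕ →₀ ℕ) (j : ℕ) : ofColex (D ω d) j = sgn (ω j) * d j := rfl

lemma D_injective (ω : ℕ → Bool) : Function.Injective (D ω) := by
  intro d e h
  ext j
  have : ofColex (D ω d) j = ofColex (D ω e) j := by rw [h]
  rw [D_apply, D_apply] at this
  exact_mod_cast mul_left_cancel₀ (sgn_ne_zero _) this

/-- The projection on the value group with zero. -/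
noncomputable def projW (n : ℕ) : W →*₀ W := WithZero.map' (AddMonoidHom.toMultiplicative (proj n))

lemma projW_exp (n : ℕ) (x : G) : projW n (exp x) = exp (proj n x) := rfl

lemma projW_mono (n : ℕ) : Monotone (projW n) := WithZero.map'_mono (proj_mono n)

/-- The random valuations. -/
noncomputable def V (n : ℕ) (ω : ℕ → Bool) : Valuation K W :=
  (valK (D ω) (D_injective ω)).map (projW n) (projW_mono n)

lemma V_algebraMap (n : ℕ) (ω : ℕ → Bool) (p : A) :
    V n ω (algebraMap A K p) = p.support.sup fun d => (exp (proj n (D ω d)) : W) := by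
  rw [V, Valuation.map_apply, valK_algebraMap, val,
    Finset.apply_sup_eq_sup_comp_of_linearOrder _ (projW_mono n) (map_zero _)]
  rfl

lemma V_dep_poly {n : ℕ} {ω ω' : ℕ → Bool} (p : A)
    (h : ∀ j, n ≤ j → j ∈ p.vars → ω j = ω' j) :
    V n ω (algebraMap A K p) = V n ω' (algebraMap A K p) := by
  rw [V_algebraMap, V_algebraMap]
  refine Finset.sup_congr rfl fun d hd => ?_
  congr 1
  apply G_ext
  intro j
  rw [proj_apply, proj_apply, D_apply, D_apply]
  by_cases hj : n ≤ j
  · rw [if_pos hj, if_pos hj]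
    by_cases hj' : d j = 0
    · simp [hj']
    · have : j ∈ p.vars := by
        rw [MvPolynomial.mem_vars_iff_mem_support]
        exact ⟨d, hd, by simpa using hj'⟩
      rw [h j hj this]
  · rw [if_neg hj, if_neg hj]

lemma V_unit_poly {n : ℕ} (ω : ℕ → Bool) {p : A} (hp : p ≠ 0)
    (h : ∀ j ∈ p.vars, j < n) :
    V n ω (algebraMap A K p) = 1 := by
  rw [V, Valuation.map_apply, valK_algebraMap]
  obtain ⟨d, hd, hd'⟩ := exists_val (D ω) hp
  rw [hd', projW_exp, ← exp_zero]
  congr 1
  apply G_ext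
  intro j
  rw [proj_apply, D_apply]
  change _ = (0 : ℤ)
  by_cases hj : n ≤ j
  · rw [if_pos hj]
    have : d j = 0 := by
      by_contra hj'
      have : j ∈ p.vars := by
        rw [MvPolynomial.mem_vars_iff_mem_support]
        exact ⟨d, hd, by simpa using hj'⟩
      exact absurd (h j this) (by omega)
    simp [this]
  · rw [if_neg hj]

/-- a bound for the indices of variables in a polynomial -/
noncomputable def bd (p : A) : ℕ := p.vars.sup id + 1

lemma lt_bd {p : A} {j : ℕ} (hj : j ∈ p.vars) : j < bd p :=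
  Nat.lt_succ_of_le (Finset.le_sup (f := id) hj)

lemma V_mono (n : ℕ) (ω : ℕ → Bool) (x : K) (h : V (n + 1) ω x < 1) : V n ω x < 1 := by
  by_contra hc
  rw [not_lt] at hc
  have h1 := projW_mono (n + 1) hc
  rw [map_one] at h1
  have h2 : ∀ y : W, projW (n + 1) (projW n y) = projW (n + 1) y := by
    intro y
    induction y using WithZero.expRecOn with
    | zero => simp
    | exp a =>
      rw [projW_exp, projW_exp, projW_exp]
      congr 1
      apply G_ext
      intro j
      rw [proj_apply, proj_apply, proj_apply]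
      by_cases hj : n + 1 ≤ j
      · rw [if_pos hj, if_pos (by omega), if_pos hj]
      · rw [if_neg hj, if_neg hj]
  rw [V, Valuation.map_apply, h2] at h1
  rw [V, Valuation.map_apply] at h
  exact absurd h (not_lt.2 h1)

lemma V_sq (n : ℕ) (ω : ℕ → Bool) (x y : K) : (V n ω x) ^ 2 ≤ V n ω (x ^ 2 + y ^ 2) := by
  rw [V, Valuation.map_apply, Valuation.map_apply, ← map_pow]
  exact projW_mono n (valK_sq _ _ _ _)

lemma V_unit (c : K) (hc : c ≠ 0) : ∃ N, ∀ n ≥ N, ∀ ω, V n ω c = 1 := by
  obtain ⟨p, q, hq, rfl⟩ := IsFractionRing.div_surjective (A := A) c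
  have hp : p ≠ 0 := by
    rintro rfl
    simp at hc
  refine ⟨max (bd p) (bd q), fun n hn ω => ?_⟩
  rw [map_div₀, V_unit_poly ω hp (fun j hj => lt_of_lt_of_le (lt_bd hj) ((le_max_left _ _).trans hn)),
    V_unit_poly ω (nonZeroDivisors.ne_zero hq)
      (fun j hj => lt_of_lt_of_le (lt_bd hj) ((le_max_right _ _).trans hn)), div_one]

/-- the variables, in the field -/
noncomputable def r (j : ℕ) : K := algebraMap A K (MvPolynomial.X j)

lemma V_r (n : ℕ) (ω : ℕ → Bool) (j : ℕ) :
    V n ω (r j) = exp (proj n (D ω (Finsupp.single j 1))) := by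
  rw [r, V_algebraMap, MvPolynomial.support_X, Finset.sup_singleton]

lemma V_r_true {n : ℕ} {ω : ℕ → Bool} {j : ℕ} (hj : n ≤ j) (h : ω j = true) : V n ω (r j) < 1 := by
  rw [V_r, ← exp_zero, exp_lt_exp]
  refine Finsupp.Colex.lt_iff.2 ⟨j, ?_, ?_⟩
  · intro i hi
    rw [proj_apply, D_apply, Finsupp.single_eq_of_ne (by omega)]
    change _ = (0 : ℤ)
    simp
  · rw [proj_apply, D_apply, if_pos hj, h]
    change _ < (0 : ℤ)
    simp [sgn]

lemma V_r_false {n : ℕ} {ω : ℕ → Bool} {j : ℕ} (hj : n ≤ j) (h : ω j = false) :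
    1 < V n ω (r j) := by
  rw [V_r, ← exp_zero, exp_lt_exp]
  refine Finsupp.Colex.lt_iff.2 ⟨j, ?_, ?_⟩
  · intro i hi
    rw [proj_apply, D_apply, Finsupp.single_eq_of_ne (by omega)]
    change (0 : ℤ) = _
    simp
  · rw [proj_apply, D_apply, if_pos hj, h]
    change (0 : ℤ) < _
    simp [sgn]

/-- An element which is in all maximal ideals of level `n`. -/
lemma V_small (n : ℕ) : ∃ a : K, a ≠ 0 ∧ ∀ ω, V n ω a < 1 := by
  have h1 : ∀ ω, V n ω (r n / (1 + r n ^ 2)) < 1 := by
    intro ω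
    rw [map_div₀]
    cases h : ω n with
    | true =>
      have h2 := V_r_true (le_refl n) h
      have h3 : V n ω (1 + r n ^ 2) = 1 := by
        rw [Valuation.map_add_eq_of_lt_left, map_one]
        rw [map_one, map_pow]
        exact pow_lt_one₀ zero_le h2 two_ne_zero
      rw [h3, div_one]
      exact h2
    | false =>
      have h2 := V_r_false (le_refl n) h
      have h3 : V n ω (1 + r n ^ 2) = V n ω (r n) ^ 2 := by
        rw [Valuation.map_add_eq_of_lt_right, map_pow]
        rw [map_one, map_pow]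
        exact one_lt_pow₀ h2 two_ne_zero
      have h4 : 0 < V n ω (r n) := lt_trans zero_lt_one h2
      rw [h3, div_lt_one₀ (pow_pos h4 2), sq]
      exact lt_mul_of_one_lt_left h4 h2
  refine ⟨_, ?_, h1⟩
  intro h0
  have hr : V n (fun _ => true) (r n) ≠ 0 := by
    rw [V_r]; exact exp_ne_zero
  have hr' : r n ≠ 0 := by
    intro h; rw [h, map_zero] at hr; exact hr rfl
  have hd : (1 + r n ^ 2 : K) ≠ 0 := by
    intro h
    have := V_sq n (fun _ => true) (r n) 1
    rw [one_pow, add_comm, h, map_zero] at this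
    exact absurd this (not_le.2 (pow_pos (zero_lt_iff.2 hr) 2))
  exact (div_ne_zero hr' hd) h0

/-- The fair coin. -/
noncomputable def coin : Measure Bool := (PMF.uniformOfFintype Bool).toMeasure

instance : IsProbabilityMeasure coin := by unfold coin; infer_instance

/-- The coin tossing space. -/
noncomputable def P : Measure (ℕ → Bool) := Measure.infinitePi (fun _ => coin)

instance : IsProbabilityMeasure P := by unfold P; infer_instance

lemma coin_true : coin {true} = 1 / 2 := by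
  rw [coin, PMF.toMeasure_apply_singleton _ _ (measurableSet_singleton _)]
  simp

/-- the block element -/
noncomputable def blk (n l : ℕ) : K := ∏ j ∈ Finset.Ico n (n + l), (1 + r j)⁻¹

lemma V_fac_true {n : ℕ} {ω : ℕ → Bool} {j : ℕ} (hj : n ≤ j) (h : ω j = true) :
    V n ω (1 + r j)⁻¹ = 1 := by
  rw [map_inv₀, Valuation.map_add_eq_of_lt_left, map_one, inv_one]
  rw [map_one]
  exact V_r_true hj h

lemma V_fac_false {n : ℕ} {ω : ℕ → Bool} {j : ℕ} (hj : n ≤ j) (h : ω j = false) :
    V n ω (1 + r j)⁻¹ < 1 := by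
  have h2 := V_r_false hj h
  rw [map_inv₀, Valuation.map_add_eq_of_lt_right]
  · exact inv_lt_one_of_one_lt₀ h2
  · rw [map_one]
    exact h2

lemma V_blk {m n l : ℕ} (hmn : m ≤ n) (ω : ℕ → Bool) :
    1 ≤ V m ω (blk n l) ↔ ∀ j ∈ Finset.Ico n (n + l), ω j = true := by
  rw [blk, map_prod]
  constructor
  · intro h j hj
    by_contra hc
    have hjn : m ≤ j := hmn.trans (Finset.mem_Ico.1 hj).1
    have hle : ∀ i ∈ Finset.Ico n (n + l), V m ω (1 + r i)⁻¹ ≤ 1 := by
      intro i hi
      have hin : m ≤ i := hmn.trans (Finset.mem_Ico.1 hi).1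
      cases hb : ω i with
      | true => exact (V_fac_true hin hb).le
      | false => exact (V_fac_false hin hb).le
    rw [← Finset.mul_prod_erase _ _ hj] at h
    have h1 : V m ω (1 + r j)⁻¹ < 1 := V_fac_false hjn (by simpa using hc)
    have h2 : ∏ i ∈ (Finset.Ico n (n + l)).erase j, V m ω (1 + r i)⁻¹ ≤ 1 :=
      Finset.prod_le_one' fun i hi => hle i (Finset.mem_of_mem_erase hi)
    exact absurd (mul_lt_one_of_lt_of_le h1 h2) (not_lt.2 h)
  · intro h
    rw [Finset.prod_eq_one]
    intro j hj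
    exact V_fac_true (hmn.trans (Finset.mem_Ico.1 hj).1) (h j hj)

lemma P_blk (n l : ℕ) : P {ω | ∀ j ∈ Finset.Ico n (n + l), ω j = true} = (1 / 2) ^ l := by
  have : {ω : ℕ → Bool | ∀ j ∈ Finset.Ico n (n + l), ω j = true} =
      Set.pi (↑(Finset.Ico n (n + l))) (fun _ => {true}) := by
    ext ω
    simp [Set.mem_pi]
  rw [this, P, Measure.infinitePi_pi]
  · simp [coin_true]
  · intro i _
    exact measurableSet_singleton _

lemma V_part (δ : ℝ≥0∞) (hδ : 0 < δ) : ∃ ε : ℝ≥0∞, 0 < ε ∧
    ∀ n, ∃ e : K, P {ω | 1 ≤ V n ω e} < δ ∧ ε ≤ P {ω | 1 ≤ V 0 ω e} := by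
  have hlim : Filter.Tendsto (fun k : ℕ => (1 / 2 : ℝ≥0∞) ^ k) Filter.atTop (nhds (0 : ℝ≥0∞)) := by
    apply ENNReal.tendsto_pow_atTop_nhds_zero_of_lt_one
    simp
  obtain ⟨l, hl⟩ := ((tendsto_order.1 hlim).2 δ hδ).exists
  refine ⟨(1 / 2) ^ l, ?_, fun n => ⟨blk n l, ?_, ?_⟩⟩
  · exact ENNReal.pow_pos (by simp) _
  · simp only [V_blk le_rfl, P_blk, hl]
  · simp only [V_blk (Nat.zero_le n), P_blk, le_rfl]

end Pool.Agent.MP_db08e8_al

namespace Pool.Agent.MP_db08e8_al

open ProbabilityTheory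

/-- membership in `E` only depends on the coordinates in `S` -/
def Dep (E : Set (ℕ → Bool)) (S : Finset ℕ) : Prop :=
  ∀ ω ω' : ℕ → Bool, (∀ j ∈ S, ω j = ω' j) → (ω ∈ E ↔ ω' ∈ E)

lemma Dep.eq_preimage {E : Set (ℕ → Bool)} {S : Finset ℕ} (h : Dep E S) :
    E = (fun ω : ℕ → Bool => fun i : S => ω i) ⁻¹' ((fun ω : ℕ → Bool => fun i : S => ω i) '' E) := by
  ext ω
  constructor
  · intro hω
    exact ⟨ω, hω, rfl⟩
  · rintro ⟨ω', hω', h'⟩
    refine (h ω' ω fun j hj => ?_).1 hω'
    exact congrFun h' ⟨j, hj⟩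

lemma Dep.measurable {E : Set (ℕ → Bool)} {S : Finset ℕ} (h : Dep E S) : MeasurableSet E := by
  rw [h.eq_preimage]
  refine measurableSet_preimage ?_ (Set.toFinite _).measurableSet
  fun_prop

lemma indep_blocks {S T : Finset ℕ} (hST : Disjoint S T) {E F : Set (ℕ → Bool)}
    (hE : Dep E S) (hF : Dep F T) : P (E ∩ F) = P E * P F := by
  have h1 : iIndepFun (fun (i : ℕ) (ω : ℕ → Bool) => ω i) P :=
    iIndepFun_infinitePi (P := fun _ : ℕ => coin) (X := fun _ => id) (fun _ => measurable_id)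
  have h2 := h1.indepFun_finset S T hST (fun i => measurable_pi_apply i)
  have h3 := h2.measure_inter_preimage_eq_mul ((fun ω : ℕ → Bool => fun i : S => ω i) '' E)
    ((fun ω : ℕ → Bool => fun i : T => ω i) '' F) (Set.toFinite _).measurableSet
    (Set.toFinite _).measurableSet
  rw [← hE.eq_preimage, ← hF.eq_preimage] at h3
  exact h3

lemma V_dep (x : K) : ∃ M : ℕ, ∀ (n : ℕ) (ω ω' : ℕ → Bool),
    (∀ j ∈ Finset.Ico n M, ω j = ω' j) → V n ω x = V n ω' x := by
  obtain ⟨p, q, hq, rfl⟩ := IsFractionRing.div_surjective (A := A) x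
  refine ⟨max (bd p) (bd q), fun n ω ω' h => ?_⟩
  rw [map_div₀, map_div₀, V_dep_poly p, V_dep_poly q]
  · intro j hj hjq
    exact h j (Finset.mem_Ico.2 ⟨hj, lt_of_lt_of_le (lt_bd hjq) (le_max_right _ _)⟩)
  · intro j hj hjp
    exact h j (Finset.mem_Ico.2 ⟨hj, lt_of_lt_of_le (lt_bd hjp) (le_max_left _ _)⟩)

lemma V_indep (n : ℕ) (p : K) : ∃ N, ∀ m ≥ N, ∀ x : K,
    P ({ω | 1 ≤ V n ω p} ∩ {ω | V m ω x < 1}) ≤
      P {ω | 1 ≤ V n ω p} * (1 - P {ω | 1 ≤ V m ω x}) := by
  obtain ⟨M, hM⟩ := V_dep p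
  refine ⟨M, fun m hm x => ?_⟩
  obtain ⟨M', hM'⟩ := V_dep x
  have hE : Dep {ω | 1 ≤ V n ω p} (Finset.Ico n M) := by
    intro ω ω' h
    simp only [Set.mem_ofPred_eq, hM n ω ω' h]
  have hF : Dep {ω | V m ω x < 1} (Finset.Ico m M') := by
    intro ω ω' h
    simp only [Set.mem_ofPred_eq, hM' m ω ω' h]
  have hF' : Dep {ω | 1 ≤ V m ω x} (Finset.Ico m M') := by
    intro ω ω' h
    simp only [Set.mem_ofPred_eq, hM' m ω ω' h]
  have hd : Disjoint (Finset.Ico n M) (Finset.Ico m M') := by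
    rw [Finset.disjoint_left]
    intro a ha hb
    rw [Finset.mem_Ico] at ha hb
    omega
  rw [indep_blocks hd hE hF]
  have : {ω | V m ω x < 1} = {ω | 1 ≤ V m ω x}ᶜ := by
    ext ω
    simp
  rw [this, prob_compl_eq_one_sub hF'.measurable]

theorem model : RandVal K W (ℕ → Bool) P V where
  mono := V_mono
  unit := V_unit
  sq := V_sq
  small := V_small
  part := V_part
  indep := V_indep

end Pool.Agent.MP_db08e8_al
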